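import Pool.Agent.W31.LD.Defs

/-!
# Small heights
-/

set_option autoImplicit false
set_option maxHeartbeats 400000

namespace Pool.Agent.W975.LD.Small

theorem c38 : ∀ n : ℕ, ∀ t : ℕ, 8 * Nat.choose (n + 3) t ≤ 3 * 2 ^ (n + 3) := by
  intro n
  induction n with
  | zero =>
    intro t
    rcases Nat.lt_or_ge t 4 with h | h
    · interval_cases t <;> decide
    · rw [Nat.choose_eq_zero_of_lt (by omega)]
      positivity
  | succ n ih =>
    intro t
    rcases t with _ | t
    · rw [Nat.choose_zero_right]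
      have h1 : 2 ^ (n + 1 + 3) = 2 ^ n * 16 := by ring
      have h2 : 1 ≤ 2 ^ n := Nat.one_le_two_pow
      omega
    · have e : n + 1 + 3 = (n + 3) + 1 := by ring
      rw [e, Nat.choose_succ_succ, pow_succ]
      have h1 := ih t
      have h2 := ih (t + 1)
      simp only [Nat.succ_eq_add_one] at *
      omega

theorem cb (k : ℕ) : (2 * k + 1) * Nat.centralBinom k ^ 2 ≤ 16 ^ k := by
  induction k with
  | zero => simp
  | succ k ih =>
    have h := Nat.succ_mul_centralBinom_succ k
    have h1 : (k + 1) ^ 2 * ((2 * (k + 1) + 1) * Nat.centralBinom (k + 1) ^ 2) ≤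
        (k + 1) ^ 2 * 16 ^ (k + 1) := by
      calc (k + 1) ^ 2 * ((2 * (k + 1) + 1) * Nat.centralBinom (k + 1) ^ 2)
          = (2 * k + 3) * ((k + 1) * Nat.centralBinom (k + 1)) ^ 2 := by ring
        _ = (2 * k + 3) * (2 * (2 * k + 1) * Nat.centralBinom k) ^ 2 := by rw [h]
        _ = 4 * ((2 * k + 3) * (2 * k + 1)) * ((2 * k + 1) * Nat.centralBinom k ^ 2) := by ring
        _ ≤ 4 * (4 * (k + 1) ^ 2) * 16 ^ k := by
            apply Nat.mul_le_mul _ ih
            apply Nat.mul_le_mul_left
            nlinarith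
        _ = (k + 1) ^ 2 * 16 ^ (k + 1) := by ring
    exact Nat.le_of_mul_le_mul_left h1 (by positivity)

theorem mid (n : ℕ) : n * Nat.choose n (n / 2) ^ 2 ≤ 4 ^ n := by
  rcases Nat.even_or_odd' n with ⟨k, rfl | rfl⟩
  · have h := cb k
    have e : 2 * k / 2 = k := by omega
    rw [e]
    rw [Nat.centralBinom_eq_two_mul_choose] at h
    have e2 : (4 : ℕ) ^ (2 * k) = 16 ^ k := by rw [pow_mul]; norm_num
    rw [e2]
    nlinarith
  · have h := cb (k + 1)
    have e : (2 * k + 1) / 2 = k := by omega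
    rw [e]
    rw [Nat.centralBinom_eq_two_mul_choose] at h
    have e1 : 2 * (k + 1) = (2 * k + 1) + 1 := by ring
    have e3 : Nat.choose (2 * (k + 1)) (k + 1) = 2 * Nat.choose (2 * k + 1) k := by
      rw [e1, Nat.choose_succ_succ, Nat.succ_eq_add_one, Nat.choose_symm_half]
      ring
    rw [e3] at h
    have e2 : (16 : ℕ) ^ (k + 1) = 4 * 4 ^ (2 * k + 1) := by
      have h16 : (16 : ℕ) ^ (k + 1) = 4 ^ (2 * (k + 1)) := by rw [pow_mul]; norm_num
      rw [h16]; ring
    rw [e2] at h
    nlinarith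

theorem chs (n t : ℕ) : (n : ℝ) * (Nat.choose n t : ℝ) ^ 2 ≤ 4 ^ n := by
  have h1 := mid n
  have h2 := Nat.choose_le_middle t n
  have h3 : n * Nat.choose n t ^ 2 ≤ 4 ^ n :=
    le_trans (Nat.mul_le_mul_left _ (Nat.pow_le_pow_left h2 2)) h1
  exact_mod_cast h3

theorem done : W31LD.T_Num_small := by
  refine ⟨2, fun B hB i hi n hn t => ?_⟩
  have hB' : (2 : ℝ) ≤ B := by exact_mod_cast hB
  have hB0 : (0 : ℝ) < B := by linarith
  set L : ℝ := Real.log B with hL
  have hL0 : 0 < L := Real.log_pos (by linarith)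
  set K : ℝ := ((i + 1 : ℕ) : ℝ) + B with hK
  have hKB : (B : ℝ) ≤ K := by
    rw [hK]
    have : (0 : ℝ) ≤ ((i + 1 : ℕ) : ℝ) := Nat.cast_nonneg _
    linarith
  have hK0 : 0 < K := by linarith
  set m : ℝ := W31LD.mu B (i + 1) with hm
  have hmK : m * (240 * K) = L := by
    rw [hm]
    unfold W31LD.mu
    exact div_mul_cancel₀ _ (by positivity)
  have hm0 : 0 < m := by
    rw [hm]
    unfold W31LD.mu
    exact div_pos hL0 (by positivity)
  rcases Nat.eq_zero_or_pos n with rfl | hnpos
  · unfold W31LD.gg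
    rw [if_pos rfl, pow_zero, mul_one]
    have h : Nat.choose 0 t ≤ 1 := by
      rcases t with _ | t
      · simp
      · simp
    exact_mod_cast h
  unfold W31LD.gg
  rw [if_neg hnpos.ne', ← hm]
  by_cases h3 : n < 3
  · have h12 : n = 1 ∨ n = 2 := by omega
    rcases h12 with rfl | rfl
    · have h : Nat.choose 1 t ≤ 1 := by
        have := Nat.choose_le_middle t 1
        simpa using this
      have h' : (Nat.choose 1 t : ℝ) ≤ 1 := by exact_mod_cast h
      have h4 : 1 ≤ Real.exp (-(m * (((1 : ℕ) : ℝ) - 2))) := by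
        apply Real.one_le_exp
        push_cast
        linarith
      calc (Nat.choose 1 t : ℝ) ≤ 1 := h'
        _ ≤ Real.exp (-(m * (((1 : ℕ) : ℝ) - 2))) := h4
        _ = 1 / 2 * Real.exp (-(m * (((1 : ℕ) : ℝ) - 2))) * 2 ^ 1 := by ring
    · have h : Nat.choose 2 t ≤ 2 := by
        have := Nat.choose_le_middle t 2
        simpa using this
      have h' : (Nat.choose 2 t : ℝ) ≤ 2 := by exact_mod_cast h
      have h4 : Real.exp (-(m * (((2 : ℕ) : ℝ) - 2))) = 1 := by
        push_cast
        simp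
      rw [h4]
      linarith
  · have hn3 : 3 ≤ n := by omega
    by_cases hsm : m * ((n : ℝ) - 2) ≤ 1 / 4
    · obtain ⟨n', rfl⟩ : ∃ n', n = n' + 3 := ⟨n - 3, by omega⟩
      have h5 := c38 n' t
      have h6 : 8 * (Nat.choose (n' + 3) t : ℝ) ≤ 3 * 2 ^ (n' + 3) := by exact_mod_cast h5
      have h7 : 3 / 4 ≤ Real.exp (-(m * (((n' + 3 : ℕ) : ℝ) - 2))) := by
        have h8 := Real.add_one_le_exp (-(m * (((n' + 3 : ℕ) : ℝ) - 2)))
        linarith
      have h9 : (0 : ℝ) < 2 ^ (n' + 3) := by positivity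
      nlinarith
    · push Not at hsm
      have hnR : (n : ℝ) ≤ 60 * ((i : ℝ) + B) := by exact_mod_cast hn
      have hn0 : (0 : ℝ) < n := by exact_mod_cast hnpos
      have hmn : m * ((n : ℝ) - 2) ≤ L / 4 := by
        have h1 : (n : ℝ) ≤ 60 * K := by
          rw [hK]; push_cast; linarith
        have h2 : m * (n : ℝ) ≤ m * (60 * K) := mul_le_mul_of_nonneg_left h1 hm0.le
        nlinarith
      set s : ℝ := Real.exp (L / 2) with hs
      have hs0 : 0 < s := Real.exp_pos _
      have hs2 : s ^ 2 = B := by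
        rw [hs, ← Real.exp_nat_mul, hL]
        push_cast
        rw [mul_div_cancel₀ _ (two_ne_zero), Real.exp_log hB0]
      have hLs : L ≤ 2 * s := by
        have := Real.add_one_le_exp (L / 2)
        rw [← hs] at this
        linarith
      have hn4 : 4 * s ≤ n := by
        have h1 : 1 / 4 < m * n := by nlinarith
        have h2 : 60 * K < n * L := by
          rw [← hmK]
          nlinarith
        have h3 : n * L ≤ n * (2 * s) := mul_le_mul_of_nonneg_left hLs hn0.le
        have h4 : 60 * s ^ 2 < n * (2 * s) := by rw [hs2]; linarith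
        have h5 : 60 * s < 2 * (n : ℝ) := by
          by_contra hcon
          push Not at hcon
          nlinarith
        linarith
      set e : ℝ := Real.exp (-(m * ((n : ℝ) - 2))) with he
      have he0 : 0 < e := Real.exp_pos _
      have hse : 1 ≤ s * e ^ 2 := by
        have : s * e ^ 2 = Real.exp (L / 2 - 2 * (m * ((n : ℝ) - 2))) := by
          rw [hs, he, ← Real.exp_nat_mul, ← Real.exp_add]
          congr 1
          push_cast; ring
        rw [this]
        apply Real.one_le_exp
        linarith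
      have hC := chs n t
      have hsq : (Nat.choose n t : ℝ) ^ 2 ≤ (1 / 2 * e * 2 ^ n) ^ 2 := by
        have h1 : (1 / 2 * e * 2 ^ n) ^ 2 = 1 / 4 * e ^ 2 * 4 ^ n := by
          have : ((2 : ℝ) ^ n) ^ 2 = 4 ^ n := by
            rw [← pow_mul, mul_comm, pow_mul]; norm_num
          rw [mul_pow, mul_pow, this]
          norm_num
        rw [h1]
        have h2 : (n : ℝ) * (Nat.choose n t : ℝ) ^ 2 ≤ (n : ℝ) * (1 / 4 * e ^ 2 * 4 ^ n) := by
          have h3 : 1 ≤ (n : ℝ) * (1 / 4 * e ^ 2) := by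
            have h4 : 4 * s * (1 / 4 * e ^ 2) ≤ n * (1 / 4 * e ^ 2) :=
              mul_le_mul_of_nonneg_right hn4 (by positivity)
            have h5 : 4 * s * (1 / 4 * e ^ 2) = s * e ^ 2 := by ring
            linarith
          have h6 : (0 : ℝ) < 4 ^ n := by positivity
          nlinarith
        exact le_of_mul_le_mul_left h2 hn0
      exact le_of_sq_le_sq hsq (by positivity)

end Pool.Agent.W975.LD.Small
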